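import Pool.Agent.Lib.S3.Leg.Run

/-! The leg lemma, main induction. -/

set_option autoImplicit false
set_option linter.unusedSectionVars false

open Finset

namespace Pool.Agent.Lib.S3.Leg

variable {ι : Type} [Fintype ι] [DecidableEq ι] {d : ℕ}

/-- The exit of a leg from a node with macroscopic private slack. -/
theorem exit_run {S : Dat ι d} {h v : ℝ} {p : Fin d → ℝ} (H : Hyp S h v p)
    {Vx : (Fin d → ℝ) → Prop} {Rc : ℕ → (Fin d → ℝ) → (Fin d → ℝ) → Prop} {Lw : ℕ}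
    (hG : Geo S.ρ S.N S.R Vx Rc (S.d0 + S.q) Lw) {k : ℕ} (hk : k ≤ S.K1) {x : Fin d → ℝ}
    {lam : ι → ℝ} (hvx : Vx x) (hx : Mn S.ρ S.N S.R (S.L k S.B) x)
    (hl : Mult S.ρ S.N S.R (S.L k S.B) x lam)
    (hq : (light S.ρ S.R x lam S.τ).card < S.q) (hs : S.α ≤ S.ρ S.i ⬝ᵥ x) :
    (∃ e ≤ S.K3, HvExit S Vx k e) ∨ (∃ e ≤ S.K3, Lf S Vx k e) ∨
      ∃ Z, Vx Z ∧ Mn S.ρ S.N S.R (S.φ • (S.G - S.Dd • S.ρ S.i)) Z ∧
        Rc (Lw + S.K3 * Lw) x Z := by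
  classical
  have hgap : ∀ y, Fe S.ρ S.N S.R y → 2 * (S.G ⬝ᵥ x - S.G ⬝ᵥ y) ≤ S.Dd * S.α :=
    fun y hy => H.G x y hx.1 hy
  have hlow : ∀ e ≤ S.K3, ∀ Z, Mn S.ρ S.N S.R (S.E k e) Z → S.α / 2 ≤ S.ρ S.i ⬝ᵥ Z := by
    intro e he Z hZ
    exact exit_low (g0 := S.G ⬝ᵥ x - S.G ⬝ᵥ Z) H.φ0 H.Dd0 (hgap Z hZ.1) he hx hZ le_rfl hs
  by_contra hcon
  push Not at hcon
  obtain ⟨hnh, hnl, hns⟩ := hcon
  -- nodes on the exit line
  have key : ∀ e ≤ S.K3, ∃ Z, Vx Z ∧ Mn S.ρ S.N S.R (S.E k e) Z ∧ Rc (Lw + e * Lw) x Z := by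
    intro e
    induction e with
    | zero =>
      intro _
      obtain ⟨Z, hvZ, hZ⟩ := hG.ex (S.E k 0)
      have hA := exit_first (g0 := S.G ⬝ᵥ x - S.G ⬝ᵥ Z) (τ := S.τ) (ε := S.ε) (α := S.α)
        H.φ0 H.Dd0 (hgap Z hZ.1) hx hZ le_rfl hs H.win1
      rcases window hG S.inf S.i H.τ0 H.ε1 hvx hvZ hl hx.1 hZ.1 hA le_rfl hq with ⟨D, hD⟩ | hR
      · exact absurd ⟨Z, D, hvZ, hZ, hD⟩ (hnh 0 (Nat.zero_le _))
      · refine ⟨Z, hvZ, hZ, ?_⟩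
        simpa using hR
    | succ e ih =>
      intro he
      obtain ⟨y, hvy, hy, hRy⟩ := ih (by omega)
      obtain ⟨mu, hmu⟩ := hG.mul _ _ hvy hy
      have hlq : (light S.ρ S.R y mu S.τ2).card < S.q := by
        by_contra hc
        push Not at hc
        obtain ⟨T, hT, hTc⟩ := Finset.exists_subset_card_eq hc
        apply hnl e (by omega)
        refine ⟨y, mu, T, hvy, hy, hmu, ?_, hTc, ?_⟩
        · intro r hr
          have := hT hr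
          unfold light at this
          exact (mem_filter.1 this).1
        · intro r hr
          have := hT hr
          unfold light at this
          exact (mem_filter.1 this).2
      obtain ⟨Z, hvZ, hZ⟩ := hG.ex (S.E k (e + 1))
      have hA := exit_step (ρ := S.ρ) (N := S.N) (R := S.R) (Lk := S.L k S.B) (G := S.G) (y := y)
        (Z := Z) (i := S.i) (φ := S.φ) (Dd := S.Dd) (α := S.α) (τ2 := S.τ2) (ε := S.ε)
        (Lb := S.K3 * (S.τ2 * (S.ε * (S.α / 2)))) (K3 := S.K3) (e := e) H.K30 hy hZ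
        (H.win2 k hk Z y hZ.1 hy.1) le_rfl (mul_nonneg H.τ20.le H.ε0.le)
        (hlow (e + 1) he Z hZ)
      rcases window hG S.inf S.i H.τ20 H.ε1 hvy hvZ hmu hy.1 hZ.1 hA le_rfl hlq with ⟨D, hD⟩ | hR
      · exact absurd ⟨Z, D, hvZ, hZ, hD⟩ (hnh (e + 1) he)
      · refine ⟨Z, hvZ, hZ, ?_⟩
        have h1 := hG.trans _ _ _ _ _ hRy hR
        have h2 : Lw + e * Lw + Lw = Lw + (e + 1) * Lw := by ring
        rwa [h2] at h1
  obtain ⟨Z, hvZ, hZ, hR⟩ := key S.K3 le_rfl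
  have hEK : S.E k S.K3 = S.φ • (S.G - S.Dd • S.ρ S.i) := by
    unfold Dat.E exitObj
    have : (S.K3 : ℝ) ≠ 0 := by exact_mod_cast H.K30.ne'
    rw [div_self this, sub_self, zero_smul, zero_add]
  rw [hEK] at hZ
  exact hns Z hvZ hZ hR

/-- A node of the leg. -/
structure Node (S : Dat ι d) (Vx : (Fin d → ℝ) → Prop)
    (Rc : ℕ → (Fin d → ℝ) → (Fin d → ℝ) → Prop) (Lw : ℕ) (x0 : Fin d → ℝ) (h v : ℝ) (k : ℕ)
    (x : Fin d → ℝ) : Prop where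
  vx : Vx x
  mn : Mn S.ρ S.N S.R (S.L k S.B) x
  rep : AllRep S S.B x
  rc : Rc (k * Lw) x0 x
  v1 : -h - ((k : ℝ) * S.δ) * (S.ρ S.i ⬝ᵥ x) ≤ S.L k S.B ⬝ᵥ x
  v2 : v ≤ S.L k S.B ⬝ᵥ x
  li : ∀ lam, Mult S.ρ S.N S.R (S.L k S.B) x lam → (light S.ρ S.R x lam S.τ).card < S.q

/-- A point which satisfies everything but the light count gives a closing or a node. -/
theorem node_or_cb {S : Dat ι d} {h v : ℝ}
    {Vx : (Fin d → ℝ) → Prop} {Rc : ℕ → (Fin d → ℝ) → (Fin d → ℝ) → Prop} {Lw : ℕ}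
    {p x0 : Fin d → ℝ} (H : Hyp S h v p) {k : ℕ} {x : Fin d → ℝ}
    (hvx : Vx x) (hmn : Mn S.ρ S.N S.R (S.L k S.B) x) (hrep : AllRep S S.B x)
    (hrc : Rc (k * Lw) x0 x)
    (hv1 : -h - ((k : ℝ) * S.δ) * (S.ρ S.i ⬝ᵥ x) ≤ S.L k S.B ⬝ᵥ x)
    (hv2 : v ≤ S.L k S.B ⬝ᵥ x) :
    Cb S Vx Rc Lw x0 v k ∨ Node S Vx Rc Lw x0 h v k x := by
  classical
  by_cases hall : ∀ lam, Mult S.ρ S.N S.R (S.L k S.B) x lam → (light S.ρ S.R x lam S.τ).card < S.q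
  · exact Or.inr ⟨hvx, hmn, hrep, hrc, hv1, hv2, hall⟩
  · left
    push Not at hall
    obtain ⟨lam, hlam, hc⟩ := hall
    obtain ⟨T, hT, hTc⟩ := Finset.exists_subset_card_eq hc
    have hT1 : ∀ r ∈ T, r ∈ tgt S.ρ x \ S.R := by
      intro r hr
      have := hT hr
      unfold light at this
      exact (mem_filter.1 this).1
    have hT2 : ∀ r ∈ T, lam r ≤ S.τ := by
      intro r hr
      have := hT hr
      unfold light at this
      exact (mem_filter.1 this).2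
    have hT3 : ∀ r ∈ T.toList, r ∈ tgt S.ρ x \ S.R := fun r hr => hT1 r (Finset.mem_toList.1 hr)
    have hb := mn_boosts H k T.toList hT3 hmn
    refine ⟨x, lam, T, hmn, hlam, hTc, hT2, fun r hr => hrep r (hT1 r hr), hvx, hb.1, ?_, hrc,
      hT3, ?_⟩
    · intro r hr
      exact rp_append H _ _ _ (hrep r hr)
    · rw [hb.2]; exact hv2

/-- **The leg lemma.** -/
theorem leg {S : Dat ι d} {h v : ℝ} {p : Fin d → ℝ} (H : Hyp S h v p)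
    {Vx : (Fin d → ℝ) → Prop} {Rc : ℕ → (Fin d → ℝ) → (Fin d → ℝ) → Prop} {Lw : ℕ}
    (hG : Geo S.ρ S.N S.R Vx Rc (S.d0 + S.q) Lw) {x0 : Fin d → ℝ} (hvx0 : Vx x0)
    (hx0 : Mn S.ρ S.N S.R (S.L 0 S.B) x0) (hrep0 : AllRep S S.B x0)
    (hval0 : -h ≤ S.L 0 S.B ⬝ᵥ x0) (hs0 : S.ρ S.i ⬝ᵥ x0 = 0) :
    Stop S Vx Rc Lw x0 v := by
  classical
  by_contra hstop
  unfold Stop at hstop
  push Not at hstop
  have key : ∀ k ≤ S.K1, ∃ x, Node S Vx Rc Lw x0 h v k x ∧ S.ρ S.i ⬝ᵥ x < S.α := by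
    intro k
    induction k with
    | zero =>
      intro _
      have hst := hstop 0 (Nat.zero_le _)
      have hv2 : v ≤ S.L 0 S.B ⬝ᵥ x0 := by
        have h1 := H.vh x0 hx0.1
        rw [hs0, mul_zero, sub_zero] at h1
        have h2 : 0 ≤ (S.K1 * S.δ) * S.α :=
          mul_nonneg (mul_nonneg (Nat.cast_nonneg _) H.δ0.le) H.α0.le
        linarith
      have hv1 : -h - (((0 : ℕ) : ℝ) * S.δ) * (S.ρ S.i ⬝ᵥ x0) ≤ S.L 0 S.B ⬝ᵥ x0 := by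
        rw [hs0, mul_zero, sub_zero]; exact hval0
      have hrc : Rc (0 * Lw) x0 x0 := by
        rw [zero_mul]; exact hG.refl x0 hvx0
      rcases node_or_cb H hvx0 hx0 hrep0 hrc hv1 hv2 with hc | hn
      · exact absurd hc hst.2.2.2.2.1
      · exact ⟨x0, hn, by rw [hs0]; exact H.α0⟩
    | succ k ih =>
      intro hk1
      obtain ⟨x, hx, hsx⟩ := ih (by omega)
      obtain ⟨lam, hlam⟩ := hG.mul _ _ hx.vx hx.mn
      have hst := hstop (k + 1) hk1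
      obtain ⟨Z, hvZ, hZ⟩ := hG.ex (S.L (k + 1) S.B)
      -- action
      have hopt := hZ.2 x hx.mn.1
      rw [L_succ_dot, L_succ_dot] at hopt
      have hopt2 := hx.mn.2 Z hZ.1
      have hx0' : 0 ≤ S.ρ S.i ⬝ᵥ x := hx.mn.1.1 S.i
      have hZ0' : 0 ≤ S.ρ S.i ⬝ᵥ Z := hZ.1.1 S.i
      have hmono : S.ρ S.i ⬝ᵥ x ≤ S.ρ S.i ⬝ᵥ Z := by
        have : 0 ≤ S.δ * (S.ρ S.i ⬝ᵥ Z - S.ρ S.i ⬝ᵥ x) := by linarith
        have := (mul_nonneg_iff_of_pos_left H.δ0).1 this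
        linarith
      have hA : S.L k S.B ⬝ᵥ Z - S.L k S.B ⬝ᵥ x ≤ S.τ * (S.ε * (S.ρ S.i ⬝ᵥ Z)) := by
        have h1 : S.L k S.B ⬝ᵥ Z - S.L k S.B ⬝ᵥ x ≤ S.δ * (S.ρ S.i ⬝ᵥ Z) := by
          have : 0 ≤ S.δ * (S.ρ S.i ⬝ᵥ x) := mul_nonneg H.δ0.le hx0'
          linarith
        have h2 : S.δ * (S.ρ S.i ⬝ᵥ Z) ≤ (S.τ * S.ε) * (S.ρ S.i ⬝ᵥ Z) :=
          mul_le_mul_of_nonneg_right H.win hZ0'
        linarith
      rcases window hG S.inf S.i H.τ0 H.ε1 hx.vx hvZ hlam hx.mn.1 hZ.1 hA le_rfl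
        (hx.li lam hlam) with ⟨D, hD⟩ | hR
      · exact absurd ⟨Z, D, hvZ, hZ, hD⟩ hst.1
      have hrc : Rc ((k + 1) * Lw) x0 Z := by
        have h1 := hG.trans _ _ _ _ _ hx.rc hR
        have h2 : k * Lw + Lw = (k + 1) * Lw := by ring
        rwa [h2] at h1
      -- values at `Z`
      have hv1 : -h - (((k + 1 : ℕ) : ℝ) * S.δ) * (S.ρ S.i ⬝ᵥ Z) ≤ S.L (k + 1) S.B ⬝ᵥ Z := by
        rw [L_succ_dot]
        have h1 := hx.v1
        have h2 : ((k : ℝ) * S.δ) * (S.ρ S.i ⬝ᵥ x) ≤ ((k : ℝ) * S.δ) * (S.ρ S.i ⬝ᵥ Z) :=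
          mul_le_mul_of_nonneg_left hmono (mul_nonneg (Nat.cast_nonneg _) H.δ0.le)
        push_cast
        nlinarith
      have hv2 : v ≤ S.L (k + 1) S.B ⬝ᵥ Z := by
        rw [L_succ_dot]
        have h1 := hx.v1
        have h2 := H.vh Z hZ.1
        have h3 : ((k : ℝ) * S.δ) * (S.ρ S.i ⬝ᵥ x) ≤ (S.K1 * S.δ) * S.α := by
          have hk' : (k : ℝ) * S.δ ≤ S.K1 * S.δ :=
            mul_le_mul_of_nonneg_right (by exact_mod_cast (by omega : k ≤ S.K1)) H.δ0.le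
          calc ((k : ℝ) * S.δ) * (S.ρ S.i ⬝ᵥ x) ≤ (S.K1 * S.δ) * (S.ρ S.i ⬝ᵥ x) :=
                mul_le_mul_of_nonneg_right hk' hx0'
            _ ≤ (S.K1 * S.δ) * S.α :=
                mul_le_mul_of_nonneg_left hsx.le (mul_nonneg (Nat.cast_nonneg _) H.δ0.le)
        linarith
      -- walls
      obtain ⟨W, hWc, hWt, hWr⟩ := boost_all H Z S.B
      by_cases hWn : W = []
      · subst hWn
        have hrepZ : AllRep S S.B Z := hWr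
        rcases node_or_cb H hvZ hZ hrepZ hrc hv1 hv2 with hc | hn
        · exact absurd hc hst.2.2.2.2.1
        · by_cases hsZ : S.ρ S.i ⬝ᵥ Z < S.α
          · exact ⟨Z, hn, hsZ⟩
          · exfalso
            push Not at hsZ
            obtain ⟨mu, hmu⟩ := hG.mul _ _ hvZ hZ
            rcases exit_run H hG hk1 hvZ hZ hmu (hn.li mu hmu) hsZ with h1 | h1 | h1
            · obtain ⟨e, he, h1⟩ := h1
              exact hst.2.1 e he h1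
            · obtain ⟨e, he, h1⟩ := h1
              exact hst.2.2.1 e he h1
            · obtain ⟨Z', hvZ', hZ', hR'⟩ := h1
              exact hst.2.2.2.2.2 ⟨Z', hvZ', hZ', hG.trans _ _ _ _ _ hrc hR'⟩
      · exfalso
        have hb := mn_boosts H (k + 1) W hWt hZ
        exact hst.2.2.2.1 ⟨Z, W, hWn, hWc, hvZ, hb.1, hWr, hrc, hWt, by rw [hb.2]; exact hv2⟩
  obtain ⟨x, hx, hsx⟩ := key S.K1 le_rfl
  have h1 := hx.v1
  have h2 := hx.mn.2 p H.pF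
  have h3 := H.pv
  have hK : (0 : ℝ) < S.K1 * S.δ := mul_pos (by exact_mod_cast H.K10) H.δ0
  have h4 : (S.K1 * S.δ) * (S.ρ S.i ⬝ᵥ x) < (S.K1 * S.δ) * S.α := mul_lt_mul_of_pos_left hsx hK
  linarith

end Pool.Agent.Lib.S3.Leg
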