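import Mathlib

/-! Deterministic windows for the private column legs (S3).

`Fe` is the chart polytope in the face of the rows `R`; `Mn` is optimality (minimisation); `Mult` are
multipliers; `Geo` collects the facts about vertices that are used. -/

set_option autoImplicit false
set_option linter.unusedSectionVars false

open Finset

namespace Pool.Agent.Lib.S3.Leg

variable {ι : Type} [Fintype ι] [DecidableEq ι] {d : ℕ}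

/-- Points of the chart polytope in the face `R`. -/
def Fe (ρ : ι → Fin d → ℝ) (N : Fin d → ℝ) (R : Finset ι) (x : Fin d → ℝ) : Prop :=
  (∀ r, 0 ≤ ρ r ⬝ᵥ x) ∧ (∀ r ∈ R, ρ r ⬝ᵥ x = 0) ∧ N ⬝ᵥ x = 1

/-- `x` minimises `Γ` on the face `R`. -/
def Mn (ρ : ι → Fin d → ℝ) (N : Fin d → ℝ) (R : Finset ι) (Γ x : Fin d → ℝ) : Prop :=
  Fe ρ N R x ∧ ∀ y, Fe ρ N R y → Γ ⬝ᵥ x ≤ Γ ⬝ᵥ y

open Classical in
/-- The tight rows. -/
noncomputable def tgt (ρ : ι → Fin d → ℝ) (x : Fin d → ℝ) : Finset ι :=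
  univ.filter (fun r => ρ r ⬝ᵥ x = 0)

theorem mem_tgt {ρ : ι → Fin d → ℝ} {x : Fin d → ℝ} {r : ι} : r ∈ tgt ρ x ↔ ρ r ⬝ᵥ x = 0 := by
  unfold tgt; simp

/-- Multipliers of `Γ` at `x` on the face `R`. -/
def Mult (ρ : ι → Fin d → ℝ) (N : Fin d → ℝ) (R : Finset ι) (Γ x : Fin d → ℝ)
    (lam : ι → ℝ) : Prop :=
  (∀ r, r ∉ tgt ρ x → lam r = 0) ∧ (∀ r, r ∉ R → 0 ≤ lam r) ∧
    ∃ γ : ℝ, Γ = γ • N + ∑ r, lam r • ρ r

open Classical in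
/-- The light rows: tight, outside `R`, multiplier at most `τ`. -/
noncomputable def light (ρ : ι → Fin d → ℝ) (R : Finset ι) (x : Fin d → ℝ) (lam : ι → ℝ)
    (τ : ℝ) : Finset ι :=
  (tgt ρ x \ R).filter (fun r => lam r ≤ τ)

/-- The facts on vertices that are used. `Rc k x y`: joined by at most `k` edges. -/
structure Geo (ρ : ι → Fin d → ℝ) (N : Fin d → ℝ) (R : Finset ι) (Vx : (Fin d → ℝ) → Prop)
    (Rc : ℕ → (Fin d → ℝ) → (Fin d → ℝ) → Prop) (h Lw : ℕ) : Prop where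
  ex : ∀ Γ : Fin d → ℝ, ∃ x, Vx x ∧ Mn ρ N R Γ x
  mul : ∀ Γ x, Vx x → Mn ρ N R Γ x → ∃ lam, Mult ρ N R Γ x lam
  win : ∀ x y, Vx x → Vx y → Fe ρ N R x → Fe ρ N R y → (tgt ρ x \ tgt ρ y).card ≤ h → Rc Lw x y
  refl : ∀ x, Vx x → Rc 0 x x
  trans : ∀ a b x y z, Rc a x y → Rc b y z → Rc (a + b) x z

/-- Heavy set: `d0` rows, near tight at `Z` relative to row `i`. -/
def HeavySet (ρ : ι → Fin d → ℝ) (R : Finset ι) (inf i : ι) (ε : ℝ) (d0 : ℕ)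
    (Z : Fin d → ℝ) (D : Finset ι) : Prop :=
  D.card = d0 ∧ inf ∉ D ∧ i ∉ D ∧ Disjoint D R ∧
    ∀ r ∈ D, 0 < ρ r ⬝ᵥ Z ∧ ρ r ⬝ᵥ Z ≤ ε * (ρ i ⬝ᵥ Z)

theorem mult_action {ρ : ι → Fin d → ℝ} {N : Fin d → ℝ} {R : Finset ι} {Γ x Z : Fin d → ℝ}
    {lam : ι → ℝ} (hl : Mult ρ N R Γ x lam) (hx : Fe ρ N R x) (hZ : Fe ρ N R Z) :
    ∑ r, lam r * (ρ r ⬝ᵥ Z) = Γ ⬝ᵥ Z - Γ ⬝ᵥ x := by
  obtain ⟨h1, _, γ, hγ⟩ := hl
  have hsum : ∀ y : Fin d → ℝ, Γ ⬝ᵥ y = γ * (N ⬝ᵥ y) + ∑ r, lam r * (ρ r ⬝ᵥ y) := by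
    intro y
    rw [hγ, add_dotProduct, smul_dotProduct, sum_dotProduct]
    simp [smul_dotProduct]
  rw [hsum Z, hsum x, hx.2.2, hZ.2.2]
  have h0 : ∑ r, lam r * (ρ r ⬝ᵥ x) = 0 := by
    apply Finset.sum_eq_zero
    intro r _
    by_cases hr : r ∈ tgt ρ x
    · rw [mem_tgt.1 hr, mul_zero]
    · rw [h1 r hr, zero_mul]
  rw [h0]; ring

/-- A row outside `R` with multiplier at least `τ` has small slack after a small action. -/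
theorem heavy_slack {ρ : ι → Fin d → ℝ} {N : Fin d → ℝ} {R : Finset ι} {Γ x Z : Fin d → ℝ}
    {lam : ι → ℝ} (hl : Mult ρ N R Γ x lam) (hx : Fe ρ N R x) (hZ : Fe ρ N R Z) {r : ι} {τ A : ℝ}
    (hA : Γ ⬝ᵥ Z - Γ ⬝ᵥ x ≤ A) (hr : τ ≤ lam r) :
    τ * (ρ r ⬝ᵥ Z) ≤ A := by
  have h1 := mult_action hl hx hZ
  have h2 : lam r * (ρ r ⬝ᵥ Z) ≤ ∑ s, lam s * (ρ s ⬝ᵥ Z) := by
    apply Finset.single_le_sum (f := fun s => lam s * (ρ s ⬝ᵥ Z)) _ (mem_univ r)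
    intro s _
    by_cases hs : s ∈ R
    · show 0 ≤ lam s * (ρ s ⬝ᵥ Z)
      rw [hZ.2.1 s hs, mul_zero]
    · exact mul_nonneg (hl.2.1 s hs) (hZ.1 s)
  have h3 : τ * (ρ r ⬝ᵥ Z) ≤ lam r * (ρ r ⬝ᵥ Z) := mul_le_mul_of_nonneg_right hr (hZ.1 r)
  linarith

/-- The window lemma: few light rows and a small action give either a heavy set or a short path. -/
theorem window {ρ : ι → Fin d → ℝ} {N : Fin d → ℝ} {R : Finset ι} {Vx : (Fin d → ℝ) → Prop}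
    {Rc : ℕ → (Fin d → ℝ) → (Fin d → ℝ) → Prop} {d0 q Lw : ℕ}
    (hG : Geo ρ N R Vx Rc (d0 + q) Lw) {Γ x Z : Fin d → ℝ} {lam : ι → ℝ} (inf i : ι) {τ ε A : ℝ}
    (hτ : 0 < τ) (hε : ε < 1) (hvx : Vx x) (hvZ : Vx Z)
    (hl : Mult ρ N R Γ x lam) (hx : Fe ρ N R x) (hZ : Fe ρ N R Z)
    (hA : Γ ⬝ᵥ Z - Γ ⬝ᵥ x ≤ A) (hA2 : A ≤ τ * (ε * (ρ i ⬝ᵥ Z)))
    (hq : (light ρ R x lam τ).card < q) :
    (∃ D, HeavySet ρ R inf i ε d0 Z D) ∨ Rc Lw x Z := by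
  classical
  by_cases hc : (tgt ρ x \ tgt ρ Z).card ≤ d0 + q
  · exact Or.inr (hG.win x Z hvx hvZ hx hZ hc)
  left
  push Not at hc
  -- the leaving rows which are not light and not `inf`
  let H : Finset ι := ((tgt ρ x \ tgt ρ Z) \ light ρ R x lam τ).erase inf
  have hH : d0 ≤ H.card := by
    have h1 : (tgt ρ x \ tgt ρ Z).card - (light ρ R x lam τ).card
        ≤ ((tgt ρ x \ tgt ρ Z) \ light ρ R x lam τ).card := Finset.le_card_sdiff _ _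
    have h2 : ((tgt ρ x \ tgt ρ Z) \ light ρ R x lam τ).card - 1 ≤ H.card :=
      Finset.pred_card_le_card_erase
    omega
  obtain ⟨D, hD, hDc⟩ := Finset.exists_subset_card_eq hH
  have key : ∀ r ∈ H, r ∉ R ∧ 0 < ρ r ⬝ᵥ Z ∧ ρ r ⬝ᵥ Z ≤ ε * (ρ i ⬝ᵥ Z) := by
    intro r hr
    have hr1 := Finset.mem_of_mem_erase hr
    rw [mem_sdiff, mem_sdiff] at hr1
    obtain ⟨⟨hrx, hrZ⟩, hrl⟩ := hr1
    have hrR : r ∉ R := fun h => hrZ (mem_tgt.2 (hZ.2.1 r h))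
    have hpos : 0 < ρ r ⬝ᵥ Z := lt_of_le_of_ne (hZ.1 r) (fun h => hrZ (mem_tgt.2 h.symm))
    have hlam : τ ≤ lam r := by
      by_contra hcon
      push Not at hcon
      apply hrl
      unfold light
      rw [mem_filter, mem_sdiff]
      exact ⟨⟨hrx, hrR⟩, hcon.le⟩
    have h3 := heavy_slack hl hx hZ hA hlam
    refine ⟨hrR, hpos, ?_⟩
    have h4 : τ * (ρ r ⬝ᵥ Z) ≤ τ * (ε * (ρ i ⬝ᵥ Z)) := h3.trans hA2
    exact le_of_mul_le_mul_left h4 hτ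
  refine ⟨D, hDc, fun h => ?_, fun h => ?_, ?_, fun r hr => ?_⟩
  · exact Finset.notMem_erase inf _ (hD h)
  · obtain ⟨_, h1, h2⟩ := key i (hD h)
    nlinarith
  · rw [Finset.disjoint_left]
    intro r hr
    exact (key r (hD hr)).1
  · exact (key r (hD hr)).2

end Pool.Agent.Lib.S3.Leg
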