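import Pool.Agent.Lib.S3.Leg.Win

/-! The exit of a leg: one straight line from the leg objective to `φ (G - Dd ρ_i)`. -/

set_option autoImplicit false
set_option linter.unusedSectionVars false

open Finset

namespace Pool.Agent.Lib.S3.Leg

variable {ι : Type} [Fintype ι] [DecidableEq ι] {d : ℕ}

/-- The objective on the exit line, position `e` of `K3`. -/
noncomputable def exitObj (Lk G ρi : Fin d → ℝ) (φ Dd : ℝ) (K3 e : ℕ) : Fin d → ℝ :=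
  (1 - (e : ℝ) / K3) • Lk + φ • (G - Dd • ρi)

theorem exitObj_dot (Lk G ρi : Fin d → ℝ) (φ Dd : ℝ) (K3 e : ℕ) (y : Fin d → ℝ) :
    exitObj Lk G ρi φ Dd K3 e ⬝ᵥ y =
      (1 - (e : ℝ) / K3) * (Lk ⬝ᵥ y) + φ * (G ⬝ᵥ y - Dd * (ρi ⬝ᵥ y)) := by
  unfold exitObj
  rw [add_dotProduct, smul_dotProduct, smul_dotProduct, sub_dotProduct, smul_dotProduct]
  simp only [smul_eq_mul]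

/-- The private slack stays macroscopic on the whole exit line. -/
theorem exit_low {ρ : ι → Fin d → ℝ} {N : Fin d → ℝ} {R : Finset ι} {Lk G x Z : Fin d → ℝ}
    {i : ι} {φ Dd α g0 : ℝ} {K3 e : ℕ} (hφ : 0 < φ) (hDd : 0 < Dd) (hα : 2 * g0 ≤ Dd * α)
    (he : e ≤ K3) (hx : Mn ρ N R Lk x) (hZ : Mn ρ N R (exitObj Lk G (ρ i) φ Dd K3 e) Z)
    (hG : G ⬝ᵥ x - G ⬝ᵥ Z ≤ g0) (hs : α ≤ ρ i ⬝ᵥ x) : α / 2 ≤ ρ i ⬝ᵥ Z := by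
  have h1 := hZ.2 x hx.1
  rw [exitObj_dot, exitObj_dot] at h1
  have h2 := hx.2 Z hZ.1
  have h3 : 0 ≤ 1 - (e : ℝ) / K3 := by
    have : (e : ℝ) / K3 ≤ 1 := by
      apply div_le_one_of_le₀ (by exact_mod_cast he) (Nat.cast_nonneg _)
    linarith
  have h4 : (1 - (e : ℝ) / K3) * (Lk ⬝ᵥ x) ≤ (1 - (e : ℝ) / K3) * (Lk ⬝ᵥ Z) :=
    mul_le_mul_of_nonneg_left h2 h3
  have h5 : φ * (G ⬝ᵥ Z - Dd * (ρ i ⬝ᵥ Z)) ≤ φ * (G ⬝ᵥ x - Dd * (ρ i ⬝ᵥ x)) := by linarith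
  have h6 : G ⬝ᵥ Z - Dd * (ρ i ⬝ᵥ Z) ≤ G ⬝ᵥ x - Dd * (ρ i ⬝ᵥ x) := le_of_mul_le_mul_left h5 hφ
  have h7 : Dd * (ρ i ⬝ᵥ x) - g0 ≤ Dd * (ρ i ⬝ᵥ Z) := by linarith
  have h8 : Dd * (α / 2) ≤ Dd * (ρ i ⬝ᵥ Z) := by
    have : Dd * α ≤ Dd * (ρ i ⬝ᵥ x) := mul_le_mul_of_nonneg_left hs hDd.le
    nlinarith
  exact le_of_mul_le_mul_left h8 hDd

/-- The action of the first exit window. -/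
theorem exit_first {ρ : ι → Fin d → ℝ} {N : Fin d → ℝ} {R : Finset ι} {Lk G x Z : Fin d → ℝ}
    {i : ι} {φ Dd α g0 τ ε : ℝ} {K3 : ℕ} (hφ : 0 < φ) (hDd : 0 < Dd) (hα : 2 * g0 ≤ Dd * α)
    (hx : Mn ρ N R Lk x) (hZ : Mn ρ N R (exitObj Lk G (ρ i) φ Dd K3 0) Z)
    (hG : G ⬝ᵥ x - G ⬝ᵥ Z ≤ g0) (hs : α ≤ ρ i ⬝ᵥ x) (hφ2 : 2 * φ * Dd ≤ τ * ε) :
    Lk ⬝ᵥ Z - Lk ⬝ᵥ x ≤ τ * (ε * (ρ i ⬝ᵥ Z)) := by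
  have hlow := exit_low hφ hDd hα (Nat.zero_le K3) hx hZ hG hs
  have h1 := hZ.2 x hx.1
  rw [exitObj_dot, exitObj_dot] at h1
  simp only [Nat.cast_zero, zero_div, sub_zero, one_mul] at h1
  have hx0 : 0 ≤ ρ i ⬝ᵥ x := hx.1.1 i
  have hZ0 : 0 ≤ ρ i ⬝ᵥ Z := hZ.1.1 i
  have h2 : Lk ⬝ᵥ Z - Lk ⬝ᵥ x ≤ φ * (G ⬝ᵥ x - G ⬝ᵥ Z + Dd * (ρ i ⬝ᵥ Z) - Dd * (ρ i ⬝ᵥ x)) := by
    nlinarith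
  have h3 : G ⬝ᵥ x - G ⬝ᵥ Z + Dd * (ρ i ⬝ᵥ Z) - Dd * (ρ i ⬝ᵥ x) ≤ 2 * Dd * (ρ i ⬝ᵥ Z) := by
    have h4 : Dd * (α / 2) ≤ Dd * (ρ i ⬝ᵥ Z) := mul_le_mul_of_nonneg_left hlow hDd.le
    have h5 : 0 ≤ Dd * (ρ i ⬝ᵥ x) := mul_nonneg hDd.le hx0
    linarith
  have h4 : φ * (G ⬝ᵥ x - G ⬝ᵥ Z + Dd * (ρ i ⬝ᵥ Z) - Dd * (ρ i ⬝ᵥ x))
      ≤ φ * (2 * Dd * (ρ i ⬝ᵥ Z)) := mul_le_mul_of_nonneg_left h3 hφ.le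
  have h5 : (2 * φ * Dd) * (ρ i ⬝ᵥ Z) ≤ (τ * ε) * (ρ i ⬝ᵥ Z) :=
    mul_le_mul_of_nonneg_right hφ2 hZ0
  nlinarith

/-- The action of the later exit windows. -/
theorem exit_step {ρ : ι → Fin d → ℝ} {N : Fin d → ℝ} {R : Finset ι} {Lk G y Z : Fin d → ℝ}
    {i : ι} {φ Dd α τ2 ε Lb : ℝ} {K3 e : ℕ} (hK3 : 0 < K3)
    (hy : Mn ρ N R (exitObj Lk G (ρ i) φ Dd K3 e) y)
    (hZ : Mn ρ N R (exitObj Lk G (ρ i) φ Dd K3 (e + 1)) Z)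
    (hLb : Lk ⬝ᵥ Z - Lk ⬝ᵥ y ≤ Lb) (hK : Lb ≤ K3 * (τ2 * (ε * (α / 2))))
    (hτε : 0 ≤ τ2 * ε) (hlow : α / 2 ≤ ρ i ⬝ᵥ Z) :
    exitObj Lk G (ρ i) φ Dd K3 e ⬝ᵥ Z - exitObj Lk G (ρ i) φ Dd K3 e ⬝ᵥ y
      ≤ τ2 * (ε * (ρ i ⬝ᵥ Z)) := by
  have hK3' : (0 : ℝ) < K3 := by exact_mod_cast hK3
  have h1 := hZ.2 y hy.1
  rw [exitObj_dot, exitObj_dot] at h1
  rw [exitObj_dot, exitObj_dot]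
  have h2 : (((e + 1 : ℕ) : ℝ)) / K3 = (e : ℝ) / K3 + 1 / K3 := by
    push_cast; ring
  rw [h2] at h1
  have h3 : (1 - (e : ℝ) / K3) * (Lk ⬝ᵥ Z) + φ * (G ⬝ᵥ Z - Dd * (ρ i ⬝ᵥ Z)) -
      ((1 - (e : ℝ) / K3) * (Lk ⬝ᵥ y) + φ * (G ⬝ᵥ y - Dd * (ρ i ⬝ᵥ y)))
      ≤ (1 / K3) * (Lk ⬝ᵥ Z - Lk ⬝ᵥ y) := by
    have h4 : (1 - ((e : ℝ) / K3 + 1 / K3)) * (Lk ⬝ᵥ Z)
        = (1 - (e : ℝ) / K3) * (Lk ⬝ᵥ Z) - (1 / K3) * (Lk ⬝ᵥ Z) := by ring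
    have h5 : (1 - ((e : ℝ) / K3 + 1 / K3)) * (Lk ⬝ᵥ y)
        = (1 - (e : ℝ) / K3) * (Lk ⬝ᵥ y) - (1 / K3) * (Lk ⬝ᵥ y) := by ring
    rw [h4, h5] at h1
    linarith
  have h6 : (1 / K3) * (Lk ⬝ᵥ Z - Lk ⬝ᵥ y) ≤ τ2 * (ε * (α / 2)) := by
    rw [one_div, inv_mul_le_iff₀ hK3']
    exact hLb.trans hK
  have h7 : (τ2 * ε) * (α / 2) ≤ (τ2 * ε) * (ρ i ⬝ᵥ Z) := mul_le_mul_of_nonneg_left hlow hτε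
  nlinarith

end Pool.Agent.Lib.S3.Leg
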