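import Pool.Agent.Lib.S3.Leg.Win

/-! Opening a pinned column at a high cost keeps the optimum. -/

set_option autoImplicit false
set_option linter.unusedSectionVars false

open Finset

namespace Pool.Agent.Lib.S3.Leg

variable {ι : Type} [Fintype ι] [DecidableEq ι] {d : ℕ}

/-- The multiplier identity at any point of the chart. -/
theorem mult_identity {ρ : ι → Fin d → ℝ} {N : Fin d → ℝ} {R : Finset ι} {Γ x y : Fin d → ℝ}
    {lam : ι → ℝ} (hl : Mult ρ N R Γ x lam) (hx : N ⬝ᵥ x = 1) (hy : N ⬝ᵥ y = 1) :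
    ∑ r, lam r * (ρ r ⬝ᵥ y) = Γ ⬝ᵥ y - Γ ⬝ᵥ x := by
  obtain ⟨h1, _, γ, hγ⟩ := hl
  have hsum : ∀ y : Fin d → ℝ, Γ ⬝ᵥ y = γ * (N ⬝ᵥ y) + ∑ r, lam r * (ρ r ⬝ᵥ y) := by
    intro y
    rw [hγ, add_dotProduct, smul_dotProduct, sum_dotProduct]
    simp [smul_dotProduct]
  rw [hsum y, hsum x, hx, hy]
  have h0 : ∑ r, lam r * (ρ r ⬝ᵥ x) = 0 := by
    apply Finset.sum_eq_zero
    intro r _
    by_cases hr : r ∈ tgt ρ x
    · rw [mem_tgt.1 hr, mul_zero]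
    · rw [h1 r hr, zero_mul]
  rw [h0]; ring

/-- Nonnegative multipliers outside `R` give optimality. -/
theorem mn_of_mult {ρ : ι → Fin d → ℝ} {N : Fin d → ℝ} {R : Finset ι} {Γ x : Fin d → ℝ}
    {lam : ι → ℝ} (hl : Mult ρ N R Γ x lam) (hx : Fe ρ N R x) : Mn ρ N R Γ x := by
  refine ⟨hx, fun y hy => ?_⟩
  have h1 := mult_action hl hx hy
  have h2 : 0 ≤ ∑ r, lam r * (ρ r ⬝ᵥ y) := by
    apply Finset.sum_nonneg
    intro r _
    by_cases hr : r ∈ R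
    · rw [hy.2.1 r hr, mul_zero]
    · exact mul_nonneg (hl.2.1 r hr) (hy.1 r)
  linarith

/-- A multiplier outside `R` is bounded by means of a deep point. -/
theorem mult_le {ρ : ι → Fin d → ℝ} {N : Fin d → ℝ} {R : Finset ι} {Γ x y : Fin d → ℝ}
    {lam : ι → ℝ} (hl : Mult ρ N R Γ x lam) (hx : Fe ρ N R x) (hy : Fe ρ N R y) {r : ι}
    {γ A : ℝ} (hrR : r ∉ R) (hγ : 0 < γ) (hr : γ ≤ ρ r ⬝ᵥ y) (hA : Γ ⬝ᵥ y - Γ ⬝ᵥ x ≤ A) :
    lam r ≤ A / γ := by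
  have h1 := mult_action hl hx hy
  have h2 : lam r * (ρ r ⬝ᵥ y) ≤ ∑ s, lam s * (ρ s ⬝ᵥ y) := by
    apply Finset.single_le_sum (f := fun s => lam s * (ρ s ⬝ᵥ y)) _ (mem_univ r)
    intro s _
    by_cases hs : s ∈ R
    · show 0 ≤ lam s * (ρ s ⬝ᵥ y)
      rw [hy.2.1 s hs, mul_zero]
    · exact mul_nonneg (hl.2.1 s hs) (hy.1 s)
  have h3 : lam r * γ ≤ lam r * (ρ r ⬝ᵥ y) := mul_le_mul_of_nonneg_left hr (hl.2.1 r hrR)
  rw [le_div_iff₀ hγ]
  linarith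

/-- **Opening a column.** `T` are the pinned rows, `i ∈ T` is opened with cost `c`. -/
theorem opening {ρ : ι → Fin d → ℝ} {N : Fin d → ℝ} {T Cl : Finset ι} {Γ x pY pi : Fin d → ℝ}
    {lam : ι → ℝ} {i : ι} {γ A A' S σ c : ℝ} (hi : i ∈ T) (hl : Mult ρ N T Γ x lam)
    (hx : Fe ρ N T x) (hpY : Fe ρ N T pY) (hγ : 0 < γ)
    (hdeep : ∀ r, r ∉ T → r ∉ Cl → γ ≤ ρ r ⬝ᵥ pY)
    (hpi : Fe ρ N (T.erase i) pi) (hCl : ∀ r ∈ Cl, ρ r ⬝ᵥ pi = 0) (hσ : 0 < σ)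
    (hσi : σ ≤ ρ i ⬝ᵥ pi) (hS : ∑ r, ρ r ⬝ᵥ pi ≤ S) (hA : Γ ⬝ᵥ pY - Γ ⬝ᵥ x ≤ A) (hA0 : 0 ≤ A)
    (hA' : -A' ≤ Γ ⬝ᵥ pi - Γ ⬝ᵥ x) (hc0 : 0 ≤ c) (hc : A' + A / γ * S ≤ c * σ) :
    Mn ρ N (T.erase i) (Γ + c • ρ i) x := by
  have hiT : ∀ r, r ∉ T → r ≠ i := fun r hr h => hr (h ▸ hi)
  -- the multiplier of `i`
  have hkey : -c ≤ lam i := by
    have h1 := mult_identity hl hx.2.2 hpi.2.2
    have h2 : ∑ r, lam r * (ρ r ⬝ᵥ pi) ≤ lam i * (ρ i ⬝ᵥ pi) + A / γ * S := by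
      rw [← Finset.add_sum_erase univ (fun r => lam r * (ρ r ⬝ᵥ pi)) (mem_univ i)]
      have h3 : ∑ r ∈ univ.erase i, lam r * (ρ r ⬝ᵥ pi)
          ≤ ∑ r ∈ univ.erase i, A / γ * (ρ r ⬝ᵥ pi) := by
        apply Finset.sum_le_sum
        intro r hr
        have hri : r ≠ i := Finset.ne_of_mem_erase hr
        by_cases hrT : r ∈ T
        · rw [hpi.2.1 r (mem_erase.2 ⟨hri, hrT⟩), mul_zero, mul_zero]
        · by_cases hrC : r ∈ Cl
          · rw [hCl r hrC, mul_zero, mul_zero]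
          · exact mul_le_mul_of_nonneg_right (mult_le hl hx hpY hrT hγ (hdeep r hrT hrC) hA)
              (hpi.1 r)
      have h4 : ∑ r ∈ univ.erase i, A / γ * (ρ r ⬝ᵥ pi) ≤ A / γ * S := by
        rw [← Finset.mul_sum]
        apply mul_le_mul_of_nonneg_left _ (div_nonneg hA0 hγ.le)
        refine le_trans ?_ hS
        exact Finset.sum_le_sum_of_subset_of_nonneg (Finset.erase_subset _ _)
          (fun r _ _ => hpi.1 r)
      have h5 := h3.trans h4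
      linarith
    have h6 : -A' - A / γ * S ≤ lam i * (ρ i ⬝ᵥ pi) := by linarith
    by_contra hcon
    push Not at hcon
    have h7 : lam i * (ρ i ⬝ᵥ pi) < -c * (ρ i ⬝ᵥ pi) :=
      mul_lt_mul_of_pos_right hcon (lt_of_lt_of_le hσ hσi)
    have h8 : c * σ ≤ c * (ρ i ⬝ᵥ pi) := mul_le_mul_of_nonneg_left hσi hc0
    linarith
  have hm : Mult ρ N (T.erase i) (Γ + c • ρ i) x
      (fun r => if r = i then lam r + c else lam r) := by
    obtain ⟨g1, g2, γ', g3⟩ := hl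
    refine ⟨?_, ?_, γ', ?_⟩
    · intro r hr
      have hri : r ≠ i := by
        rintro rfl
        exact hr (mem_tgt.2 (hx.2.1 r hi))
      simp only [if_neg hri]
      exact g1 r hr
    · intro r hr
      by_cases hri : r = i
      · simp only [if_pos hri]
        subst hri
        linarith
      · simp only [if_neg hri]
        apply g2
        intro hrT
        exact hr (mem_erase.2 ⟨hri, hrT⟩)
    · have h9 : ∀ r, (if r = i then lam r + c else lam r) • ρ r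
          = lam r • ρ r + (if r = i then c • ρ r else 0) := by
        intro r
        by_cases hri : r = i
        · simp only [if_pos hri, add_smul]
        · simp only [if_neg hri, add_zero]
      rw [Finset.sum_congr rfl (fun r _ => h9 r), Finset.sum_add_distrib,
        Finset.sum_ite_eq' univ i (fun r => c • ρ r), if_pos (mem_univ i), ← add_assoc, ← g3]
  refine mn_of_mult hm ⟨hx.1, fun r hr => hx.2.1 r (Finset.mem_of_mem_erase hr), hx.2.2⟩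

end Pool.Agent.Lib.S3.Leg
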