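import Pool.Agent.Lib.S3.Leg.Exit

/-! The leg lemma: a leg with one private column either succeeds, or fails with a heavy window or a
light node on the exit line, or is closed by walls or by a batch. -/

set_option autoImplicit false
set_option linter.unusedSectionVars false

open Finset

namespace Pool.Agent.Lib.S3.Leg

variable {ι : Type} [Fintype ι] [DecidableEq ι] {d : ℕ}

/-- Boosting a tight row keeps the optimum. -/
theorem mn_boost {ρ : ι → Fin d → ℝ} {N : Fin d → ℝ} {R : Finset ι} {Γ x : Fin d → ℝ} {r : ι}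
    {w : ℝ} (hx : Mn ρ N R Γ x) (hr : ρ r ⬝ᵥ x = 0) (hw : 0 ≤ w) :
    Mn ρ N R (Γ + w • ρ r) x := by
  refine ⟨hx.1, fun y hy => ?_⟩
  rw [add_dotProduct, add_dotProduct, smul_dotProduct, smul_dotProduct, hr, smul_zero, add_zero]
  have h1 := hx.2 y hy
  have h2 : 0 ≤ w • (ρ r ⬝ᵥ y) := by
    rw [smul_eq_mul]; exact mul_nonneg hw (hy.1 r)
  linarith

/-- The fixed data of a leg (one side, one state, one private column). -/
structure Dat (ι : Type) (d : ℕ) where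
  ρ : ι → Fin d → ℝ
  N : Fin d → ℝ
  R : Finset ι
  inf : ι
  i : ι
  /-- natural part of the objective -/
  nat : Fin d → ℝ
  /-- boost vector of a list of boosted rows -/
  bst : List ι → Fin d → ℝ
  /-- weight of the next boost -/
  w : List ι → ι → ℝ
  /-- representability -/
  Rp : List ι → ι → Prop
  B : List ι
  G : Fin d → ℝ
  δ : ℝ
  τ : ℝ
  τ2 : ℝ
  ε : ℝ
  α : ℝ
  φ : ℝ
  Dd : ℝ
  K1 : ℕ
  K3 : ℕ
  d0 : ℕ
  q : ℕ

/-- The leg objective at position `k` with boosted list `B'`. -/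
noncomputable def Dat.L (S : Dat ι d) (k : ℕ) (B' : List ι) : Fin d → ℝ :=
  S.nat + S.bst B' - ((k : ℝ) * S.δ) • S.ρ S.i

/-- The exit objective. -/
noncomputable def Dat.E (S : Dat ι d) (k e : ℕ) : Fin d → ℝ :=
  exitObj (S.L k S.B) S.G (S.ρ S.i) S.φ S.Dd S.K3 e

/-- All tight rows outside `R` are representable. -/
def AllRep (S : Dat ι d) (B' : List ι) (x : Fin d → ℝ) : Prop :=
  ∀ r ∈ tgt S.ρ x \ S.R, S.Rp B' r

/-- A chain of walls on top of `B`. -/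
def WCh (S : Dat ι d) (B' : List ι) : List ι → Prop
  | [] => True
  | r :: W => ¬ S.Rp (W ++ B') r ∧ WCh S B' W

/-- Heavy failure in the leg. -/
def HvLeg (S : Dat ι d) (Vx : (Fin d → ℝ) → Prop) (k : ℕ) : Prop :=
  ∃ Z D, Vx Z ∧ Mn S.ρ S.N S.R (S.L k S.B) Z ∧ HeavySet S.ρ S.R S.inf S.i S.ε S.d0 Z D

/-- Heavy failure on the exit line. -/
def HvExit (S : Dat ι d) (Vx : (Fin d → ℝ) → Prop) (k e : ℕ) : Prop :=
  ∃ Z D, Vx Z ∧ Mn S.ρ S.N S.R (S.E k e) Z ∧ HeavySet S.ρ S.R S.inf S.i S.ε S.d0 Z D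

/-- Light failure on the exit line. -/
def Lf (S : Dat ι d) (Vx : (Fin d → ℝ) → Prop) (k e : ℕ) : Prop :=
  ∃ x lam, ∃ T : Finset ι, Vx x ∧ Mn S.ρ S.N S.R (S.E k e) x ∧ Mult S.ρ S.N S.R (S.E k e) x lam ∧
    T ⊆ tgt S.ρ x \ S.R ∧ T.card = S.q ∧ ∀ r ∈ T, lam r ≤ S.τ2

/-- The common content of a closing at position `k` with new boosted rows `W`. -/
def Closed (S : Dat ι d) (Vx : (Fin d → ℝ) → Prop) (Rc : ℕ → (Fin d → ℝ) → (Fin d → ℝ) → Prop)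
    (Lw : ℕ) (x0 : Fin d → ℝ) (v : ℝ) (k : ℕ) (x : Fin d → ℝ) (W : List ι) : Prop :=
  Vx x ∧ Mn S.ρ S.N S.R (S.L k (W ++ S.B)) x ∧ AllRep S (W ++ S.B) x ∧ Rc (k * Lw) x0 x ∧
    (∀ r ∈ W, r ∈ tgt S.ρ x \ S.R) ∧ v ≤ S.L k (W ++ S.B) ⬝ᵥ x

/-- Closing by walls. -/
def Cw (S : Dat ι d) (Vx : (Fin d → ℝ) → Prop) (Rc : ℕ → (Fin d → ℝ) → (Fin d → ℝ) → Prop)
    (Lw : ℕ) (x0 : Fin d → ℝ) (v : ℝ) (k : ℕ) : Prop :=
  ∃ x W, W ≠ [] ∧ WCh S S.B W ∧ Closed S Vx Rc Lw x0 v k x W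

/-- Closing by a batch. -/
def Cb (S : Dat ι d) (Vx : (Fin d → ℝ) → Prop) (Rc : ℕ → (Fin d → ℝ) → (Fin d → ℝ) → Prop)
    (Lw : ℕ) (x0 : Fin d → ℝ) (v : ℝ) (k : ℕ) : Prop :=
  ∃ x lam, ∃ T : Finset ι, Mn S.ρ S.N S.R (S.L k S.B) x ∧ Mult S.ρ S.N S.R (S.L k S.B) x lam ∧
    T.card = S.q ∧ (∀ r ∈ T, lam r ≤ S.τ) ∧ (∀ r ∈ T, S.Rp S.B r) ∧
    Closed S Vx Rc Lw x0 v k x T.toList

/-- Success. -/
def Suc (S : Dat ι d) (Vx : (Fin d → ℝ) → Prop) (Rc : ℕ → (Fin d → ℝ) → (Fin d → ℝ) → Prop)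
    (Lw : ℕ) (x0 : Fin d → ℝ) (k : ℕ) : Prop :=
  ∃ Z, Vx Z ∧ Mn S.ρ S.N S.R (S.φ • (S.G - S.Dd • S.ρ S.i)) Z ∧
    Rc (k * Lw + (Lw + S.K3 * Lw)) x0 Z

/-- The stopping alternatives of a leg. -/
def Stop (S : Dat ι d) (Vx : (Fin d → ℝ) → Prop) (Rc : ℕ → (Fin d → ℝ) → (Fin d → ℝ) → Prop)
    (Lw : ℕ) (x0 : Fin d → ℝ) (v : ℝ) : Prop :=
  ∃ k ≤ S.K1, HvLeg S Vx k ∨ (∃ e ≤ S.K3, HvExit S Vx k e) ∨ (∃ e ≤ S.K3, Lf S Vx k e) ∨
    Cw S Vx Rc Lw x0 v k ∨ Cb S Vx Rc Lw x0 v k ∨ Suc S Vx Rc Lw x0 k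

/-- The inequalities between the parameters, and the bounds on the polytope. -/
structure Hyp (S : Dat ι d) (h v : ℝ) (p : Fin d → ℝ) : Prop where
  rpm : ∀ B r s, S.Rp B r → S.Rp (s :: B) r
  rps : ∀ B r, S.Rp (r :: B) r
  w0 : ∀ B r, 0 ≤ S.w B r
  bst : ∀ B r, S.bst (r :: B) = S.bst B + S.w B r • S.ρ r
  δ0 : 0 < S.δ
  τ0 : 0 < S.τ
  τ20 : 0 < S.τ2
  ε0 : 0 < S.ε
  ε1 : S.ε < 1
  α0 : 0 < S.α
  φ0 : 0 < S.φ
  Dd0 : 0 < S.Dd
  K10 : 0 < S.K1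
  K30 : 0 < S.K3
  iR : S.i ∉ S.R
  /-- leg windows -/
  win : S.δ ≤ S.τ * S.ε
  /-- first exit window -/
  win1 : 2 * S.φ * S.Dd ≤ S.τ * S.ε
  /-- spread of `G` -/
  G : ∀ x y, Fe S.ρ S.N S.R x → Fe S.ρ S.N S.R y → 2 * (S.G ⬝ᵥ x - S.G ⬝ᵥ y) ≤ S.Dd * S.α
  /-- exit steps -/
  win2 : ∀ k ≤ S.K1, ∀ x y, Fe S.ρ S.N S.R x → Fe S.ρ S.N S.R y →
    S.L k S.B ⬝ᵥ x - S.L k S.B ⬝ᵥ y ≤ S.K3 * (S.τ2 * (S.ε * (S.α / 2)))
  /-- the deep point of column `i` -/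
  pF : Fe S.ρ S.N S.R p
  pv : S.L S.K1 S.B ⬝ᵥ p ≤ -h - (S.K1 * S.δ) * S.α
  /-- value after a closing -/
  vh : ∀ x, Fe S.ρ S.N S.R x → v ≤ -h - (S.K1 * S.δ) * S.α - S.δ * (S.ρ S.i ⬝ᵥ x)

theorem L_dot (S : Dat ι d) (k : ℕ) (B' : List ι) (y : Fin d → ℝ) :
    S.L k B' ⬝ᵥ y = (S.nat + S.bst B') ⬝ᵥ y - ((k : ℝ) * S.δ) * (S.ρ S.i ⬝ᵥ y) := by
  unfold Dat.L
  rw [sub_dotProduct, smul_dotProduct, smul_eq_mul]

theorem L_succ_dot (S : Dat ι d) (k : ℕ) (B' : List ι) (y : Fin d → ℝ) :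
    S.L (k + 1) B' ⬝ᵥ y = S.L k B' ⬝ᵥ y - S.δ * (S.ρ S.i ⬝ᵥ y) := by
  rw [L_dot, L_dot]; push_cast; ring

theorem L_cons {S : Dat ι d} {h v : ℝ} {p : Fin d → ℝ} (H : Hyp S h v p) (k : ℕ) (B' : List ι)
    (r : ι) : S.L k (r :: B') = S.L k B' + S.w B' r • S.ρ r := by
  unfold Dat.L
  rw [H.bst]
  abel

/-- Boosting a list of tight rows keeps the optimum and the value. -/
theorem mn_boosts {S : Dat ι d} {h v : ℝ} {p : Fin d → ℝ} (H : Hyp S h v p) (k : ℕ)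
    {x : Fin d → ℝ} (W : List ι) (hW : ∀ r ∈ W, r ∈ tgt S.ρ x \ S.R)
    (hx : Mn S.ρ S.N S.R (S.L k S.B) x) :
    Mn S.ρ S.N S.R (S.L k (W ++ S.B)) x ∧ S.L k (W ++ S.B) ⬝ᵥ x = S.L k S.B ⬝ᵥ x := by
  induction W with
  | nil => exact ⟨hx, rfl⟩
  | cons r W ih =>
    have h1 := ih (fun s hs => hW s (List.mem_cons_of_mem _ hs))
    have hr : S.ρ r ⬝ᵥ x = 0 := mem_tgt.1 (mem_sdiff.1 (hW r List.mem_cons_self)).1
    rw [List.cons_append, L_cons H]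
    refine ⟨mn_boost h1.1 hr (H.w0 _ _), ?_⟩
    rw [add_dotProduct, smul_dotProduct, hr, smul_zero, add_zero]
    exact h1.2

theorem rp_append {S : Dat ι d} {h v : ℝ} {p : Fin d → ℝ} (H : Hyp S h v p) (B' : List ι)
    (r : ι) (W : List ι) (hr : S.Rp B' r) : S.Rp (W ++ B') r := by
  induction W with
  | nil => exact hr
  | cons s W ih => exact H.rpm _ _ _ ih

/-- All unrepresentable tight rows can be boosted one after the other. -/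
theorem boost_all {S : Dat ι d} {h v : ℝ} {p : Fin d → ℝ} (H : Hyp S h v p) (x : Fin d → ℝ)
    (B' : List ι) :
    ∃ W, WCh S B' W ∧ (∀ r ∈ W, r ∈ tgt S.ρ x \ S.R) ∧ AllRep S (W ++ B') x := by
  classical
  -- strong induction on the number of unrepresentable tight rows
  have key : ∀ n : ℕ, ∀ W : List ι, WCh S B' W → (∀ r ∈ W, r ∈ tgt S.ρ x \ S.R) →
      ((tgt S.ρ x \ S.R).filter (fun r => ¬ S.Rp (W ++ B') r)).card ≤ n →
      ∃ W, WCh S B' W ∧ (∀ r ∈ W, r ∈ tgt S.ρ x \ S.R) ∧ AllRep S (W ++ B') x := by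
    intro n
    induction n with
    | zero =>
      intro W h1 h2 h3
      refine ⟨W, h1, h2, fun r hr => ?_⟩
      by_contra hcon
      have : r ∈ (tgt S.ρ x \ S.R).filter (fun r => ¬ S.Rp (W ++ B') r) :=
        mem_filter.2 ⟨hr, hcon⟩
      rw [Finset.card_eq_zero.1 (Nat.le_zero.1 h3)] at this
      exact absurd this (Finset.notMem_empty _)
    | succ n ih =>
      intro W h1 h2 h3
      by_cases hall : AllRep S (W ++ B') x
      · exact ⟨W, h1, h2, hall⟩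
      · unfold AllRep at hall
        push Not at hall
        obtain ⟨r, hr, hrr⟩ := hall
        apply ih (r :: W) ⟨hrr, h1⟩
        · intro s hs
          rcases List.mem_cons.1 hs with rfl | hs
          · exact hr
          · exact h2 s hs
        · have hss : (tgt S.ρ x \ S.R).filter (fun s => ¬ S.Rp ((r :: W) ++ B') s) ⊂
              (tgt S.ρ x \ S.R).filter (fun s => ¬ S.Rp (W ++ B') s) := by
            rw [Finset.ssubset_iff_of_subset]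
            · refine ⟨r, mem_filter.2 ⟨hr, hrr⟩, ?_⟩
              rw [mem_filter]
              push Not
              intro _
              exact H.rps _ _
            · intro s hs
              rw [mem_filter] at hs ⊢
              exact ⟨hs.1, fun hc => hs.2 (H.rpm _ _ _ hc)⟩
          have := Finset.card_lt_card hss
          omega
  exact key _ [] trivial (by simp) le_rfl

end Pool.Agent.Lib.S3.Leg
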